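import Pool.Agent.Helper49.KX.St

/-!
# Project KX, module ASM
-/

set_option autoImplicit false

namespace Pool.Agent.Helper40.KX

open Finset Filter Topology MeasureTheory Module
open Pool.Agent.Helper49.KX

section aux

variable {X : Type} [TopologicalSpace X]

/-- evaluation at a point -/
noncomputable def ex (x : X) : C(X, ℂ) →+* ℂ where
  toFun f := f x
  map_one' := rfl
  map_mul' _ _ := rfl
  map_zero' := rfl
  map_add' _ _ := rfl

theorem atx_mul {r : ℕ} (M M' : Matrix (Fin r) (Fin r) C(X, ℂ)) (x : X) :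
    atx (M * M') x = atx M x * atx M' x := by
  have := Matrix.map_mul (L := M) (M := M') (f := ex x)
  exact this

theorem atx_sub {r : ℕ} (M M' : Matrix (Fin r) (Fin r) C(X, ℂ)) (x : X) :
    atx (M - M') x = atx M x - atx M' x := rfl

theorem atx_cst {r : ℕ} (u : Matrix (Fin r) (Fin r) ℂ) (x : X) :
    atx (cst u : Matrix (Fin r) (Fin r) C(X, ℂ)) x = u := rfl

theorem atx_det {r : ℕ} (M : Matrix (Fin r) (Fin r) C(X, ℂ)) (x : X) :
    (M.det) x = (atx M x).det := by
  have := RingHom.map_det (ex x) M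
  exact this

theorem atx_Gm {r : ℕ} (κ : Fin r → Fin 4) (u : Matrix (Fin r) (Fin r) ℂ)
    (c η : Matrix (Fin r) (Fin r) C(X, ℂ)) (x : X) :
    atx (Gm κ (cst u) c η) x = Gm κ u (atx c x) (atx η x) := by
  have h1 : ∀ i l, (c * cst u : Matrix (Fin r) (Fin r) C(X, ℂ)) i l x = (atx c x * u) i l := by
    intro i l
    have := congrFun (congrFun (atx_mul c (cst u) x) i) l
    rw [atx_cst] at this
    exact this
  have h2 : ∀ i l, (η * cst u : Matrix (Fin r) (Fin r) C(X, ℂ)) i l x = (atx η x * u) i l := by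
    intro i l
    have := congrFun (congrFun (atx_mul η (cst u) x) i) l
    rw [atx_cst] at this
    exact this
  ext i l
  show (Gm κ (cst u) c η) i l x = _
  unfold Gm
  by_cases h0 : κ l = 0
  · simp only [h0, if_true]; exact h1 i l
  · by_cases h11 : κ l = 1
    · simp only [h11]
      have : (cst u - c * cst u : Matrix (Fin r) (Fin r) C(X, ℂ)) i l x
        = u i l - (c * cst u : Matrix (Fin r) (Fin r) C(X, ℂ)) i l x := rfl
      simp only [one_ne_zero, if_true, if_false, Fin.isValue]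
      rw [this, h1]
      rfl
    · by_cases h22 : κ l = 2
      · simp only [h22]
        have e0 : (2 : Fin 4) ≠ 0 := by decide
        have e1 : (2 : Fin 4) ≠ 1 := by decide
        simp only [e0, e1, if_true, if_false]
        exact h2 i l
      · simp only [h0, h11, h22, if_false]
        rfl

/-- the matrices `D_k` -/
noncomputable def Dk {R : Type} [CommRing R] {r : ℕ} (κ : Fin r → Fin 4) (k : Fin 4) :
    Matrix (Fin r) (Fin r) R := Matrix.diagonal fun i => if κ i = k then 1 else 0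

/-- the matrix `W` -/
noncomputable def Wm {R : Type} [CommRing R] {r : ℕ} (κ : Fin r → Fin 4)
    (σ : Equiv.Perm (Fin r)) : Matrix (Fin r) (Fin r) R :=
  fun i l => if κ l = 3 ∧ i = σ l then 1 else 0

/-- the matrix `W'` -/
noncomputable def Wm' {R : Type} [CommRing R] {r : ℕ} (κ : Fin r → Fin 4)
    (σ : Equiv.Perm (Fin r)) : Matrix (Fin r) (Fin r) R :=
  fun i l => if κ i = 3 ∧ l = σ i then 1 else 0

variable {R : Type} [CommRing R] {r : ℕ}

theorem Dk_mul (κ : Fin r → Fin 4) (k l : Fin 4) :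
    (Dk κ k * Dk κ l : Matrix (Fin r) (Fin r) R) = if k = l then Dk κ k else 0 := by
  unfold Dk
  rw [Matrix.diagonal_mul_diagonal]
  split_ifs with h
  · subst h
    congr 1
    ext i
    split_ifs <;> simp
  · rw [← Matrix.diagonal_zero]
    congr 1
    ext i
    split_ifs with h1 h2
    · exact absurd (h1.symm.trans h2) h
    all_goals simp

theorem Dk_sum (κ : Fin r → Fin 4) :
    (Dk κ 0 + Dk κ 1 + Dk κ 2 + Dk κ 3 : Matrix (Fin r) (Fin r) R) = 1 := by
  unfold Dk
  rw [Matrix.diagonal_add, Matrix.diagonal_add, Matrix.diagonal_add, ← Matrix.diagonal_one]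
  congr 1
  ext i
  generalize κ i = a
  fin_cases a <;> simp

theorem mul_Dk (M : Matrix (Fin r) (Fin r) R) (κ : Fin r → Fin 4) (k : Fin 4) (i l : Fin r) :
    (M * Dk κ k : Matrix (Fin r) (Fin r) R) i l = if κ l = k then M i l else 0 := by
  unfold Dk
  rw [Matrix.mul_diagonal]
  split_ifs <;> simp

theorem Dk_mul' (M : Matrix (Fin r) (Fin r) R) (κ : Fin r → Fin 4) (k : Fin 4) (i l : Fin r) :
    (Dk κ k * M : Matrix (Fin r) (Fin r) R) i l = if κ i = k then M i l else 0 := by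
  unfold Dk
  rw [Matrix.diagonal_mul]
  split_ifs <;> simp

/-- the inverse times a scalar -/
noncomputable def Hm (d : R) (G : Matrix (Fin r) (Fin r) R) : Matrix (Fin r) (Fin r) R :=
  d • G.adjugate

theorem conj_mul (G D D' : Matrix (Fin r) (Fin r) R) (d : R) (i k : Fin r) :
    (G * D * Hm d G * (G * D' * Hm d G) : Matrix (Fin r) (Fin r) R) i k
      = (d * G.det) * (G * (D * D') * Hm d G : Matrix (Fin r) (Fin r) R) i k := by
  have hHG : Hm d G * G = (d * G.det) • (1 : Matrix (Fin r) (Fin r) R) := by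
    unfold Hm
    rw [Matrix.smul_mul, Matrix.adjugate_mul, smul_smul]
  have h1 : G * D * Hm d G * (G * D' * Hm d G) = (d * G.det) • (G * (D * D') * Hm d G) := by
    calc G * D * Hm d G * (G * D' * Hm d G) = G * D * (Hm d G * G) * (D' * Hm d G) := by
          simp only [Matrix.mul_assoc]
      _ = G * D * ((d * G.det) • (1 : Matrix (Fin r) (Fin r) R)) * (D' * Hm d G) := by
          rw [hHG]
      _ = _ := by
          simp only [Matrix.mul_assoc, Matrix.smul_mul, Matrix.mul_smul, Matrix.one_mul]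
  rw [h1]
  rfl

theorem conj_one (G : Matrix (Fin r) (Fin r) R) (d : R) (i k : Fin r) :
    (G * 1 * Hm d G : Matrix (Fin r) (Fin r) R) i k
      = (d * G.det) * (1 : Matrix (Fin r) (Fin r) R) i k := by
  have hGH : G * Hm d G = (d * G.det) • (1 : Matrix (Fin r) (Fin r) R) := by
    unfold Hm
    rw [Matrix.mul_smul, Matrix.mul_adjugate, smul_smul]
  rw [Matrix.mul_one, hGH]
  rfl

theorem W_mul_W' (κ : Fin r → Fin 4) (σ : Equiv.Perm (Fin r)) (hi : ∀ i, σ (σ i) = i)
    (hfr : ∀ i, κ i = 2 → κ (σ i) = 3) (hrf : ∀ i, κ i = 3 → κ (σ i) = 2) :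
    (Wm κ σ * Wm' κ σ : Matrix (Fin r) (Fin r) R) = Dk κ 2 := by
  ext i l
  rw [Matrix.mul_apply]
  unfold Wm Wm' Dk
  rw [Matrix.diagonal_apply]
  have : ∀ m, ((if κ m = 3 ∧ i = σ m then (1 : R) else 0) * if κ m = 3 ∧ l = σ m then 1 else 0)
      = if m = σ i then (if κ (σ i) = 3 ∧ l = i then 1 else 0) else 0 := by
    intro m
    by_cases h : m = σ i
    · subst h
      simp only [hi, and_true, if_true]
      split_ifs <;> simp_all
    · have : ¬ (i = σ m) := by
        intro h'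
        exact h (by rw [h', hi])
      simp [h, this]
  simp only [this, Finset.sum_ite_eq', Finset.mem_univ, if_true]
  by_cases h : i = l
  · subst h
    simp only [and_true, if_true]
    by_cases h2 : κ i = 2
    · simp [h2, hfr i h2]
    · have : ¬ κ (σ i) = 3 := by
        intro h3
        apply h2
        have := hrf _ h3
        rwa [hi] at this
      simp [h2, this]
  · have : ¬ (l = i) := fun h' => h h'.symm
    simp [h, this]

theorem W'_mul_W (κ : Fin r → Fin 4) (σ : Equiv.Perm (Fin r)) (hi : ∀ i, σ (σ i) = i) :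
    (Wm' κ σ * Wm κ σ : Matrix (Fin r) (Fin r) R) = Dk κ 3 := by
  ext i l
  rw [Matrix.mul_apply]
  unfold Wm Wm' Dk
  rw [Matrix.diagonal_apply]
  have : ∀ m, ((if κ i = 3 ∧ m = σ i then (1 : R) else 0) * if κ l = 3 ∧ m = σ l then 1 else 0)
      = if m = σ i then (if κ i = 3 ∧ i = l then 1 else 0) else 0 := by
    intro m
    by_cases h : m = σ i
    · subst h
      by_cases h3 : i = l
      · subst h3
        by_cases h4 : κ i = 3 <;> simp [h4]
      · have : ¬ (σ i = σ l) := fun h' => h3 (σ.injective h')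
        simp [h3, this]
    · simp [h]
  simp only [this, Finset.sum_ite_eq', Finset.mem_univ, if_true]
  by_cases h : i = l
  · subst h
    simp
  · simp [h]

theorem W_D3 (κ : Fin r → Fin 4) (σ : Equiv.Perm (Fin r)) :
    (Wm κ σ * Dk κ 3 : Matrix (Fin r) (Fin r) R) = Wm κ σ := by
  ext i l
  rw [mul_Dk]
  unfold Wm
  split_ifs <;> simp_all

theorem D2_W (κ : Fin r → Fin 4) (σ : Equiv.Perm (Fin r)) (hrf : ∀ i, κ i = 3 → κ (σ i) = 2) :
    (Dk κ 2 * Wm κ σ : Matrix (Fin r) (Fin r) R) = Wm κ σ := by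
  ext i l
  rw [Dk_mul']
  unfold Wm
  by_cases h : κ l = 3 ∧ i = σ l
  · have : κ i = 2 := by rw [h.2]; exact hrf l h.1
    simp [this]
  · simp [h]

theorem D3_W' (κ : Fin r → Fin 4) (σ : Equiv.Perm (Fin r)) :
    (Dk κ 3 * Wm' κ σ : Matrix (Fin r) (Fin r) R) = Wm' κ σ := by
  ext i l
  rw [Dk_mul']
  unfold Wm'
  split_ifs <;> simp_all

theorem W'_D2 (κ : Fin r → Fin 4) (σ : Equiv.Perm (Fin r)) (hrf : ∀ i, κ i = 3 → κ (σ i) = 2) :
    (Wm' κ σ * Dk κ 2 : Matrix (Fin r) (Fin r) R) = Wm' κ σ := by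
  ext i l
  rw [mul_Dk]
  unfold Wm'
  by_cases h : κ i = 3 ∧ l = σ i
  · have : κ l = 2 := by rw [h.2]; exact hrf i h.1
    simp [this]
  · simp [h]

end aux

theorem hASM : StAsm := by
  intro hEvm hBbm hBba hAbs X _ h A _ _ j U hcov g s N n Y r hT hg hw hwin
  obtain ⟨_, hadd, hsub, hun, htw⟩ := hEvm X h A j U hcov
  obtain ⟨hB1, hBadd, hBmul, hBcongr⟩ := hBbm hEvm X h A j U hcov n Y r hT
  have hBba' := hBba hEvm X h A j U hcov n Y r hT
  set w : FS X := tw h (tw h g (un - g)) s with hwdef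
  choose κ σ u hWD hunit using hwin
  set C : ∀ v, Matrix (Fin (r v)) (Fin (r v)) C(X, ℂ) := fun v => cm h (r v) g with hC
  set E : ∀ v, Matrix (Fin (r v)) (Fin (r v)) C(X, ℂ) := fun v => cm h (r v) w with hE
  set G : ∀ v, Matrix (Fin (r v)) (Fin (r v)) C(X, ℂ) := fun v => Gm (κ v) (cst (u v)) (C v) (E v)
    with hG
  have hdet : ∀ v, ∀ x ∈ Y v, (G v).det x ≠ 0 := by
    intro v x hx
    rw [atx_det, hG]
    simp only
    rw [atx_Gm]
    exact ((Matrix.isUnit_iff_isUnit_det _).1 (hunit v x hx)).ne_zero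
  -- the inverse of the determinant
  have hdex : ∀ v, ∃ d : C(X, ℂ), ∀ x ∈ Y v, d x * (G v).det x = 1 := by
    intro v
    have hne : ∀ x, (G v).det x * chi (Y v) x + (1 - chi (Y v) x) ≠ 0 := by
      intro x
      rw [chi_apply (hT.clopen v)]
      split_ifs with hx
      · simpa using hdet v x hx
      · simp
    refine ⟨⟨fun x => ((G v).det x * chi (Y v) x + (1 - chi (Y v) x))⁻¹, ?_⟩, ?_⟩
    · apply Continuous.inv₀ _ hne
      fun_prop
    · intro x hx
      show ((G v).det x * chi (Y v) x + (1 - chi (Y v) x))⁻¹ * (G v).det x = 1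
      rw [chi_apply (hT.clopen v), if_pos hx, mul_one, sub_self, add_zero]
      exact inv_mul_cancel₀ (hdet v x hx)
  choose d hd using hdex
  set H : ∀ v, Matrix (Fin (r v)) (Fin (r v)) C(X, ℂ) := fun v => Hm (d v) (G v) with hH
  have he1 : ∀ v, ∀ x ∈ Y v, ∀ f : C(X, ℂ), (d v * (G v).det * f) x = f x := by
    intro v x hx f
    have : (d v * (G v).det * f) x = d v x * (G v).det x * f x := rfl
    rw [this, hd v x hx, one_mul]
  -- the map `Φ`
  obtain ⟨Φ, hΦ⟩ : ∃ Φ : (∀ v, Matrix (Fin (r v)) (Fin (r v)) C(X, ℂ)) → A,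
      ∀ M, Φ M = ev j U (BB h Y r M) := ⟨_, fun _ => rfl⟩
  have hΦ1 : Φ (fun _ => 1) = 1 := by rw [hΦ]; exact hB1
  have hΦa : ∀ M M' : ∀ v, Matrix (Fin (r v)) (Fin (r v)) C(X, ℂ),
      Φ (fun v => M v + M' v) = Φ M + Φ M' := by
    intro M M'; rw [hΦ, hΦ, hΦ]; exact hBadd M M'
  have hΦm : ∀ M M' : ∀ v, Matrix (Fin (r v)) (Fin (r v)) C(X, ℂ),
      Φ (fun v => M v * M' v) = Φ M * Φ M' := by
    intro M M'; rw [hΦ, hΦ, hΦ]; exact hBmul M M'
  have hΦs : ∀ M M' : ∀ v, Matrix (Fin (r v)) (Fin (r v)) C(X, ℂ),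
      Φ (fun v => M v - M' v) = Φ M - Φ M' := by
    intro M M'
    have := hΦa (fun v => M v - M' v) M'
    simp only [sub_add_cancel] at this
    rw [eq_sub_iff_add_eq, ← this]
  have hΦc : ∀ M M' : ∀ v, Matrix (Fin (r v)) (Fin (r v)) C(X, ℂ),
      (∀ v, ∀ x ∈ Y v, ∀ i k, M v i k x = M' v i k x) → Φ M = Φ M' := by
    intro M M' hMM
    rw [hΦ, hΦ, hBcongr M M' hMM]
  -- the map `T`
  obtain ⟨T, hTd⟩ : ∃ T : (∀ v, Matrix (Fin (r v)) (Fin (r v)) C(X, ℂ)) → A,
      ∀ M, T M = Φ (fun v => G v * M v * H v) := ⟨_, fun _ => rfl⟩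
  have hTm : ∀ M M' : ∀ v, Matrix (Fin (r v)) (Fin (r v)) C(X, ℂ),
      T M * T M' = T (fun v => M v * M' v) := by
    intro M M'
    rw [hTd, hTd, hTd, ← hΦm]
    apply hΦc
    intro v x hx i k
    have h1 := conj_mul (G v) (M v) (M' v) (d v) i k
    simp only [hH]
    rw [h1, he1 v x hx]
  have hTa : ∀ M M' : ∀ v, Matrix (Fin (r v)) (Fin (r v)) C(X, ℂ),
      T M + T M' = T (fun v => M v + M' v) := by
    intro M M'
    rw [hTd, hTd, hTd, ← hΦa]
    congr 1
    funext v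
    rw [Matrix.mul_add, Matrix.add_mul]
  have hT1 : T (fun _ => 1) = 1 := by
    rw [hTd, ← hΦ1]
    apply hΦc
    intro v x hx i k
    have h1 := conj_one (G v) (d v) i k
    simp only [hH]
    rw [h1, he1 v x hx]
  have hT0 : T (fun _ => 0) = 0 := by
    have := hTa (fun _ => 0) (fun _ => 0)
    simp only [add_zero] at this
    exact add_eq_left.1 this
  -- left multiplication
  have hlm : ∀ (g' : FS X) (M : ∀ v, Matrix (Fin (r v)) (Fin (r v)) C(X, ℂ)),
      (∀ m : ℤ, (N : ℤ) < |m| → g' m = 0) →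
      (∀ v, ∀ x ∈ Y v, ∀ i ∈ SB (r v) N, ∀ k, M v i k x = 0) →
      ev j U g' * Φ M = Φ (fun v => cm h (r v) g' * M v) := by
    intro g' M h1 h2
    rw [hΦ, hΦ]
    exact hBba' g' N M h1 h2
  have hrow : ∀ (k : Fin 4), k ≠ 3 → ∀ v, ∀ x ∈ Y v, ∀ i ∈ SB (r v) N, ∀ l,
      (cst (u v) * Dk (κ v) k * H v : Matrix (Fin (r v)) (Fin (r v)) C(X, ℂ)) i l x = 0 := by
    intro k hk v x _ i hi l
    have h1 : (cst (u v) * Dk (κ v) k * H v : Matrix (Fin (r v)) (Fin (r v)) C(X, ℂ)) i l = 0 := by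
      rw [Matrix.mul_apply]
      apply Finset.sum_eq_zero
      intro m _
      rw [mul_Dk]
      split_ifs with h2
      · have h3 : κ v m ≠ 3 := by rw [h2]; exact hk
        have h4 : (cst (u v) : Matrix (Fin (r v)) (Fin (r v)) C(X, ℂ)) i m = 0 := by
          unfold cst
          rw [(hWD v).zS i m h3 hi]
          rfl
        rw [h4, zero_mul]
      · rw [zero_mul]
    rw [h1]
    rfl
  have hG0 : ∀ v, G v * Dk (κ v) 0 = C v * (cst (u v) * Dk (κ v) 0) := by
    intro v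
    rw [← Matrix.mul_assoc]
    ext1 i l
    rw [mul_Dk, mul_Dk]
    split_ifs with h1
    · simp only [hG, Gm, h1, if_true]
    · rfl
  have hG1 : ∀ v, G v * Dk (κ v) 1 = (cst (u v) - C v * cst (u v)) * Dk (κ v) 1 := by
    intro v
    ext1 i l
    rw [mul_Dk, mul_Dk]
    split_ifs with h1
    · simp only [hG, Gm, h1, one_ne_zero, if_true, if_false]
    · rfl
  have hG2 : ∀ v, G v * Dk (κ v) 2 = E v * (cst (u v) * Dk (κ v) 2) := by
    intro v
    rw [← Matrix.mul_assoc]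
    ext1 i l
    rw [mul_Dk, mul_Dk]
    split_ifs with h1
    · have e0 : (2 : Fin 4) ≠ 0 := by decide
      have e1 : (2 : Fin 4) ≠ 1 := by decide
      simp only [hG, Gm, h1, e0, e1, if_true, if_false]
    · rfl
  have hevw : ev j U w = ev j U g * (1 - ev j U g) * ev j U s := by
    rw [hwdef, htw, htw, hsub, hun]
  obtain ⟨P, hP⟩ : ∃ P : Fin 4 → A, ∀ k, P k = T (fun v => Dk (κ v) k) := ⟨_, fun _ => rfl⟩
  have hPmul : ∀ k l, P k * P l = if k = l then P k else 0 := by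
    intro k l
    rw [hP, hP, hTm]
    simp only [Dk_mul]
    split_ifs with h1
    · rfl
    · exact hT0
  have hpa : P 0 = ev j U g * Φ (fun v => cst (u v) * Dk (κ v) 0 * H v) := by
    rw [hlm g _ hg (hrow 0 (by decide)), hP, hTd]
    congr 1
    funext v
    rw [hG0]
    simp only [Matrix.mul_assoc, hC]
  have hpb : P 1 = (1 - ev j U g) * Φ (fun v => cst (u v) * Dk (κ v) 1 * H v) := by
    rw [sub_mul, one_mul, hlm g _ hg (hrow 1 (by decide)), ← hΦs, hP, hTd]
    congr 1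
    funext v
    rw [hG1]
    simp only [Matrix.mul_assoc, Matrix.sub_mul, hC]
  have hpf : P 2 = ev j U w * Φ (fun v => cst (u v) * Dk (κ v) 2 * H v) := by
    rw [hlm w _ hw (hrow 2 (by decide)), hP, hTd]
    congr 1
    funext v
    rw [hG2]
    simp only [Matrix.mul_assoc, hE]
  rw [hevw] at hpf
  refine hAbs A (ev j U g) (P 0) (P 1) (P 2) (P 3) (T fun v => Wm (κ v) (σ v))
    (T fun v => Wm' (κ v) (σ v)) _ _
    ((1 - ev j U g) * ev j U s * Φ (fun v => cst (u v) * Dk (κ v) 2 * H v))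
    (ev j U g * ev j U s * Φ (fun v => cst (u v) * Dk (κ v) 2 * H v))
    ?_ ?_ ?_ ?_ ?_ ?_ ?_ ?_ ?_ ?_ ?_ ?_ ?_ ?_ ?_ ?_ ?_ ?_ ?_ ?_ ?_ ?_ ?_ hpa hpb ?_ ?_
  · rw [hP, hP, hP, hP, hTa, hTa, hTa, ← hT1]
    congr 1
    funext v
    exact Dk_sum (κ v)
  · rw [hPmul]; rfl
  · rw [hPmul]; rfl
  · rw [hPmul]; rfl
  · rw [hPmul]; rfl
  · rw [hPmul]; rfl
  · rw [hPmul]; rfl
  · rw [hPmul]; rfl
  · rw [hPmul]; rfl
  · rw [hPmul]; rfl
  · rw [hPmul]; rfl
  · rw [hPmul]; rfl
  · rw [hPmul]; rfl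
  · rw [hPmul]; rfl
  · rw [hPmul]; rfl
  · rw [hPmul]; rfl
  · rw [hPmul]; rfl
  · rw [hP, hTm]
    congr 1
    funext v
    exact D2_W _ _ (hWD v).rf
  · rw [hP, hTm]
    congr 1
    funext v
    exact W_D3 _ _
  · rw [hP, hTm]
    congr 1
    funext v
    exact D3_W' _ _
  · rw [hP, hTm]
    congr 1
    funext v
    exact W'_D2 _ _ (hWD v).rf
  · rw [hP, hTm]
    congr 1
    funext v
    exact W'_mul_W _ _ (hWD v).inv
  · rw [hP, hTm]
    congr 1
    funext v
    exact W_mul_W' _ _ (hWD v).inv (hWD v).fr (hWD v).rf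
  · rw [hpf]
    simp only [mul_assoc]
  · rw [hpf]
    have : ev j U g * (1 - ev j U g) = (1 - ev j U g) * ev j U g := by
      rw [mul_sub, sub_mul, mul_one, one_mul]
    rw [this]
    simp only [mul_assoc]

end Pool.Agent.Helper40.KX
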